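import Mathlib

set_option autoImplicit false

namespace Pool.Agent.Results.MP_409260_co.JoinCycles

variable {V : Type} (G : SimpleGraph V)

/-- the vertex set of the ball `B(v,r)`: the vertices at graph distance at most `r` from `v` -/
def ball (v : V) (r : ℕ) : Set V := {u | G.edist v u ≤ r}

lemma self_mem_ball (v : V) (r : ℕ) : v ∈ ball G v r := by
  show G.edist v v ≤ r
  rw [SimpleGraph.edist_self]; exact bot_le

/-- All balls of radius `r` have exactly `k` vertices and they are pairwise isomorphic as rooted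
graphs (each ball is the induced subgraph, rooted at its centre). -/
def UniformBallsAt (r k : ℕ) : Prop :=
  (∀ v : V, (ball G v r).ncard = k) ∧
  ∀ v w : V, ∃ φ : G.induce (ball G v r) ≃g G.induce (ball G w r),
    φ ⟨v, self_mem_ball G v r⟩ = ⟨w, self_mem_ball G w r⟩

/-- vertex transitivity -/
def VertexTransitive : Prop := ∀ v w : V, ∃ φ : G ≃g G, φ v = w

/-! ### The example: the join of `m` disjoint copies of `C₄ ∪ C₅` -/

/-- successor on the disjoint union of a 4-cycle `0123` and a 5-cycle `45678` -/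
def s (a : Fin 9) : Fin 9 := ![1, 2, 3, 0, 5, 6, 7, 8, 4] a
/-- predecessor -/
def p (a : Fin 9) : Fin 9 := ![3, 0, 1, 2, 8, 4, 5, 6, 7] a

/-- adjacency in `H = C₄ ∪ C₅` -/
def H (a b : Fin 9) : Bool := b = s a || b = p a

/-- the join of `m` disjoint copies of `H` -/
def J (m : ℕ) : SimpleGraph (Fin m × Fin 9) where
  Adj x y := x.1 ≠ y.1 ∨ H x.2 y.2 = true
  symm := ⟨by
    intro x y h
    rcases h with h | h
    · exact Or.inl (Ne.symm h)
    · right
      have : ∀ a b : Fin 9, H a b = true → H b a = true := by decide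
      exact this _ _ h⟩
  loopless := ⟨by
    intro x h
    rcases h with h | h
    · exact h rfl
    · have : ∀ a : Fin 9, ¬ H a a = true := by decide
      exact this _ h⟩

lemma J_adj {m : ℕ} {x y : Fin m × Fin 9} : (J m).Adj x y ↔ (x.1 ≠ y.1 ∨ H x.2 y.2 = true) :=
  Iff.rfl

/-- a permutation of `Fin 9` carrying the rooted neighbourhood of `a` to that of `b` -/
def tau (a b : Fin 9) : Equiv.Perm (Fin 9) :=
  let t1 := Equiv.swap a b
  let t2 := Equiv.swap (t1 (s a)) (s b) * t1
  Equiv.swap (t2 (p a)) (p b) * t2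

lemma tau_spec : ∀ a b : Fin 9, tau a b a = b ∧ tau a b (s a) = s b ∧ tau a b (p a) = p b := by
  decide

lemma H_local : ∀ a : Fin 9, H a (s a) = true ∧ H a (p a) = true ∧ H (s a) (p a) = false ∧
    H (p a) (s a) = false ∧ H a a = false ∧ H (s a) a = true ∧ H (p a) a = true ∧
    H (s a) (s a) = false ∧ H (p a) (p a) = false := by decide

lemma mem_ball_one {m : ℕ} {x y : Fin m × Fin 9} :
    y ∈ ball (J m) x 1 ↔ (x.1 ≠ y.1 ∨ (y.2 = x.2 ∨ y.2 = s x.2 ∨ y.2 = p x.2)) := by
  show (J m).edist x y ≤ ((1 : ℕ) : ℕ∞) ↔ _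
  rw [Nat.cast_one, SimpleGraph.edist_le_one_iff_adj_or_eq, J_adj]
  have hH : H x.2 y.2 = true ↔ (y.2 = s x.2 ∨ y.2 = p x.2) := by
    simp [H]
  rw [hH]
  constructor
  · rintro ((h | h) | h)
    · exact Or.inl h
    · exact Or.inr (Or.inr h)
    · subst h; exact Or.inr (Or.inl rfl)
  · rintro (h | h | h)
    · exact Or.inl (Or.inl h)
    · by_cases h1 : x.1 = y.1
      · right; exact Prod.ext h1 h.symm
      · exact Or.inl (Or.inl h1)
    · exact Or.inl (Or.inr h)

/-- the bijection of the vertex set realising the rooted isomorphism of balls -/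
def Phi {m : ℕ} (x y : Fin m × Fin 9) : (Fin m × Fin 9) ≃ (Fin m × Fin 9) where
  toFun z := (Equiv.swap x.1 y.1 z.1, if z.1 = x.1 then tau x.2 y.2 z.2 else z.2)
  invFun z := (Equiv.swap x.1 y.1 z.1, if z.1 = y.1 then (tau x.2 y.2).symm z.2 else z.2)
  left_inv := by
    intro z
    by_cases h : z.1 = x.1
    · simp only [h, if_true, Equiv.swap_apply_left, Equiv.swap_apply_right, Equiv.symm_apply_apply]
      exact Prod.ext h.symm rfl
    · have : ¬ Equiv.swap x.1 y.1 z.1 = y.1 := by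
        intro hh
        apply h
        have := congrArg (Equiv.swap x.1 y.1) hh
        rwa [Equiv.swap_apply_self, Equiv.swap_apply_right] at this
      simp only [h, this, if_false, Equiv.swap_apply_self]
  right_inv := by
    intro z
    by_cases h : z.1 = y.1
    · simp only [h, if_true, Equiv.swap_apply_left, Equiv.swap_apply_right, Equiv.apply_symm_apply]
      exact Prod.ext h.symm rfl
    · have : ¬ Equiv.swap x.1 y.1 z.1 = x.1 := by
        intro hh
        apply h
        have := congrArg (Equiv.swap x.1 y.1) hh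
        rwa [Equiv.swap_apply_self, Equiv.swap_apply_left] at this
      simp only [h, this, if_false, Equiv.swap_apply_self]

lemma Phi_fst {m : ℕ} (x y z : Fin m × Fin 9) : (Phi x y z).1 = Equiv.swap x.1 y.1 z.1 := rfl
lemma Phi_snd_pos {m : ℕ} (x y z : Fin m × Fin 9) (h : z.1 = x.1) :
    (Phi x y z).2 = tau x.2 y.2 z.2 := if_pos h
lemma Phi_snd_neg {m : ℕ} (x y z : Fin m × Fin 9) (h : ¬ z.1 = x.1) :
    (Phi x y z).2 = z.2 := if_neg h

lemma Phi_mem {m : ℕ} (x y z : Fin m × Fin 9) :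
    z ∈ ball (J m) x 1 ↔ Phi x y z ∈ ball (J m) y 1 := by
  rw [mem_ball_one, mem_ball_one]
  obtain ⟨t1, t2, t3⟩ := tau_spec x.2 y.2
  by_cases h : z.1 = x.1
  · rw [Phi_fst, Phi_snd_pos x y z h, h, Equiv.swap_apply_left]
    have e1 : tau x.2 y.2 z.2 = y.2 ↔ z.2 = x.2 := by
      constructor
      · intro hh; exact (tau x.2 y.2).injective (hh.trans t1.symm)
      · intro hh; rw [hh, t1]
    have e2 : tau x.2 y.2 z.2 = s y.2 ↔ z.2 = s x.2 := by
      constructor
      · intro hh; exact (tau x.2 y.2).injective (hh.trans t2.symm)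
      · intro hh; rw [hh, t2]
    have e3 : tau x.2 y.2 z.2 = p y.2 ↔ z.2 = p x.2 := by
      constructor
      · intro hh; exact (tau x.2 y.2).injective (hh.trans t3.symm)
      · intro hh; rw [hh, t3]
    rw [e1, e2, e3]
    simp
  · have h2 : y.1 ≠ (Phi x y z).1 := by
      rw [Phi_fst]
      intro hh
      apply h
      have := congrArg (Equiv.swap x.1 y.1) hh
      rw [Equiv.swap_apply_self, Equiv.swap_apply_right] at this
      exact this.symm
    exact ⟨fun _ => Or.inl h2, fun _ => Or.inl (fun hh => h hh.symm)⟩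

lemma Phi_adj {m : ℕ} (x y z w : Fin m × Fin 9) (hz : z ∈ ball (J m) x 1)
    (hw : w ∈ ball (J m) x 1) : (J m).Adj (Phi x y z) (Phi x y w) ↔ (J m).Adj z w := by
  rw [J_adj, J_adj, Phi_fst, Phi_fst]
  by_cases h : z.1 = w.1
  · have h1 : ¬ (z.1 ≠ w.1) := fun hh => hh h
    have h2 : ¬ (Equiv.swap x.1 y.1 z.1 ≠ Equiv.swap x.1 y.1 w.1) := fun hh => hh (by rw [h])
    rw [or_iff_right h1, or_iff_right h2]
    by_cases hx : z.1 = x.1
    · have hx' : w.1 = x.1 := h ▸ hx
      rw [Phi_snd_pos x y z hx, Phi_snd_pos x y w hx']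
      rw [mem_ball_one] at hz hw
      have hz' := (or_iff_right (fun hh : x.1 ≠ z.1 => hh hx.symm)).1 hz
      have hw' := (or_iff_right (fun hh : x.1 ≠ w.1 => hh hx'.symm)).1 hw
      obtain ⟨t1, t2, t3⟩ := tau_spec x.2 y.2
      obtain ⟨a1, a2, a3, a4, a5, a6, a7, a8, a9⟩ := H_local x.2
      obtain ⟨b1, b2, b3, b4, b5, b6, b7, b8, b9⟩ := H_local y.2
      rcases hz' with e | e | e <;> rcases hw' with f | f | f <;> rw [e, f] <;>
        simp only [t1, t2, t3, a1, a2, a3, a4, a5, a6, a7, a8, a9, b1, b2, b3, b4, b5, b6, b7, b8, b9]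
    · have hx' : ¬ w.1 = x.1 := h ▸ hx
      rw [Phi_snd_neg x y z hx, Phi_snd_neg x y w hx']
  · have h2 : Equiv.swap x.1 y.1 z.1 ≠ Equiv.swap x.1 y.1 w.1 := fun hh =>
      h ((Equiv.swap x.1 y.1).injective hh)
    exact ⟨fun _ => Or.inl h, fun _ => Or.inl h2⟩

lemma ball_card {m : ℕ} (hm : 1 ≤ m) (x : Fin m × Fin 9) :
    (ball (J m) x 1).ncard = 9 * m - 6 := by
  classical
  have hset : ball (J m) x 1 = ((Finset.univ.filter (fun y : Fin m × Fin 9 =>
      (x.1 ≠ y.1 ∨ (y.2 = x.2 ∨ y.2 = s x.2 ∨ y.2 = p x.2)))) : Finset (Fin m × Fin 9)) := by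
    ext y
    rw [mem_ball_one]; simp
  rw [hset, Set.ncard_coe_finset]
  have hcompl : (Finset.univ.filter (fun y : Fin m × Fin 9 =>
      ¬ (x.1 ≠ y.1 ∨ (y.2 = x.2 ∨ y.2 = s x.2 ∨ y.2 = p x.2)))) =
      (Finset.univ.filter (fun b : Fin 9 => ¬ (b = x.2 ∨ b = s x.2 ∨ b = p x.2))).image
        (fun b => (x.1, b)) := by
    ext y
    simp only [Finset.mem_filter, Finset.mem_univ, true_and, Finset.mem_image]
    constructor
    · intro h
      rw [not_or] at h
      exact ⟨y.2, h.2, Prod.ext (not_not.1 h.1) rfl⟩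
    · rintro ⟨b, hb, rfl⟩
      rw [not_or]
      exact ⟨fun h => h rfl, hb⟩
  have h6 : ∀ a : Fin 9, (Finset.univ.filter (fun b : Fin 9 => ¬ (b = a ∨ b = s a ∨ b = p a))).card = 6 := by
    decide
  have hc := Finset.card_filter_add_card_filter_not (s := (Finset.univ : Finset (Fin m × Fin 9)))
    (fun y : Fin m × Fin 9 => (x.1 ≠ y.1 ∨ (y.2 = x.2 ∨ y.2 = s x.2 ∨ y.2 = p x.2)))
  rw [hcompl, Finset.card_image_of_injective _ (fun a b h => (Prod.ext_iff.1 h).2), h6,
    Finset.card_univ, Fintype.card_prod, Fintype.card_fin, Fintype.card_fin] at hc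
  omega

lemma uniform {m : ℕ} (hm : 1 ≤ m) : UniformBallsAt (J m) 1 (9 * m - 6) := by
  refine ⟨ball_card hm, ?_⟩
  intro x y
  refine ⟨⟨(Phi x y).subtypeEquiv (Phi_mem x y), ?_⟩, ?_⟩
  · rintro ⟨z, hz⟩ ⟨w, hw⟩
    exact Phi_adj x y z w hz hw
  · apply Subtype.ext
    show Phi x y x = y
    exact Prod.ext (by rw [Phi_fst, Equiv.swap_apply_left])
      (by rw [Phi_snd_pos x y x rfl]; exact (tau_spec x.2 y.2).1)

/-- `v` has a twin: another vertex with the same neighbourhood -/
lemma not_transitive {m : ℕ} (hm : 1 ≤ m) : ¬ VertexTransitive (J m) := by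
  intro h
  let i : Fin m := ⟨0, hm⟩
  obtain ⟨φ, hφ⟩ := h (i, 0) (i, 4)
  have ht : ∀ w, (J m).Adj (i, 0) w ↔ (J m).Adj (i, 2) w := by
    intro w
    rw [J_adj, J_adj]
    have : ∀ b : Fin 9, H 0 b = true ↔ H 2 b = true := by decide
    show (i ≠ w.1 ∨ H 0 w.2 = true) ↔ (i ≠ w.1 ∨ H 2 w.2 = true)
    rw [this]
  have hne : φ (i, 2) ≠ (i, 4) := by
    rw [← hφ]
    intro hh
    have := φ.injective hh
    have h20 : (2 : Fin 9) = 0 := (Prod.ext_iff.1 this).2
    exact absurd h20 (by decide)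
  have ht' : ∀ w, (J m).Adj (i, 4) w ↔ (J m).Adj (φ (i, 2)) w := by
    intro w
    obtain ⟨w', rfl⟩ := φ.surjective w
    rw [← hφ, φ.map_adj_iff, φ.map_adj_iff]
    exact ht w'
  have hfst : i = (φ (i, 2)).1 := by
    by_contra hh
    have h1 : (J m).Adj (i, 4) (φ (i, 2)) := Or.inl hh
    exact (J m).irrefl ((ht' _).1 h1)
  have hsnd : ∀ c : Fin 9, H 4 c = true ↔ H (φ (i, 2)).2 c = true := by
    intro c
    have := ht' (i, c)
    rw [J_adj, J_adj] at this
    have e1 : ¬ ((φ (i, 2)).1 ≠ (i, c).1) := fun hh => hh hfst.symm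
    rw [or_iff_right e1] at this
    rw [← this]
    exact ⟨fun h => Or.inr h, fun h => (or_iff_right (fun hh : i ≠ i => hh rfl)).1 h⟩
  have key : ∀ b : Fin 9, (∀ c : Fin 9, H 4 c = true ↔ H b c = true) → b = 4 := by decide
  exact hne (Prod.ext hfst.symm (key _ hsnd))

lemma ediam_eq {m : ℕ} (hm : 2 ≤ m) : (J m).ediam = 2 := by
  apply le_antisymm
  · rw [SimpleGraph.ediam_le_iff]
    intro x y
    by_cases h : x.1 = y.1
    · obtain ⟨j, hj⟩ : ∃ j : Fin m, j ≠ x.1 := by
        have : Nontrivial (Fin m) := Fin.nontrivial_iff_two_le.2 hm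
        exact exists_ne _
      have h1 : (J m).Adj x (j, 0) := Or.inl (Ne.symm hj)
      have h2 : (J m).Adj (j, 0) y := Or.inl (h ▸ hj)
      have := SimpleGraph.edist_le (SimpleGraph.Walk.cons h1 (SimpleGraph.Walk.cons h2 SimpleGraph.Walk.nil))
      simpa using this
    · have h1 : (J m).Adj x y := Or.inl h
      have := SimpleGraph.edist_le (SimpleGraph.Walk.cons h1 SimpleGraph.Walk.nil)
      refine this.trans ?_
      simp
  · have hpos : 0 < m := by omega
    let i : Fin m := ⟨0, hpos⟩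
    have hn : ¬ (J m).edist (i, 0) (i, 2) ≤ 1 := by
      rw [SimpleGraph.edist_le_one_iff_adj_or_eq, J_adj]
      rintro ((h | h) | h)
      · exact h rfl
      · have h' : H 0 2 = true := h
        exact absurd h' (by decide)
      · have h20 : (0 : Fin 9) = 2 := (Prod.ext_iff.1 h).2
        exact absurd h20 (by decide)
    have h1 : (1 : ℕ∞) < (J m).ediam := lt_of_lt_of_le (not_le.1 hn) SimpleGraph.edist_le_ediam
    have := Order.add_one_le_of_lt h1
    rwa [one_add_one_eq_two] at this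

/-- **Main result.** For every `ε > 0` there are a finite simple graph `G` on `n` vertices and an
integer `k` with `n/2 < k < n` and `k ≥ (1-ε) n` such that all balls of radius `1` of `G` have
exactly `k` vertices and are pairwise isomorphic as rooted graphs, the diameter of `G` is `2`
(so the radius `1` equals `diam(G) - 1`), and `G` is not vertex transitive. -/
theorem result (ε : ℝ) (hε : 0 < ε) :
    ∃ (V : Type) (_ : Fintype V) (G : SimpleGraph V) (k : ℕ),
      (Fintype.card V : ℝ) / 2 < k ∧ (1 - ε) * Fintype.card V ≤ k ∧ k < Fintype.card V ∧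
      UniformBallsAt G 1 k ∧ G.ediam = 2 ∧ ¬ VertexTransitive G := by
  obtain ⟨N, hN⟩ := exists_nat_gt (1 / ε)
  let m := N + 2
  refine ⟨Fin m × Fin 9, inferInstance, J m, 9 * m - 6, ?_, ?_, ?_, uniform (by omega),
    ediam_eq (by omega), not_transitive (by omega)⟩
  · rw [Fintype.card_prod, Fintype.card_fin, Fintype.card_fin, Nat.cast_sub (by omega)]
    have : (2 : ℝ) ≤ m := by exact_mod_cast (by omega : 2 ≤ m)
    push_cast
    linarith
  · rw [Fintype.card_prod, Fintype.card_fin, Fintype.card_fin, Nat.cast_sub (by omega)]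
    have h1 : 1 < ε * N := by
      rw [div_lt_iff₀ hε] at hN
      linarith
    have h2 : (N : ℝ) ≤ m := by exact_mod_cast (by omega : N ≤ m)
    push_cast
    nlinarith
  · rw [Fintype.card_prod, Fintype.card_fin, Fintype.card_fin]
    omega

end Pool.Agent.Results.MP_409260_co.JoinCycles
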